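import Mathlib
import Pool.Agent.TH736.GF.Final

set_option autoImplicit false

/-!
# Family equivalence of grammar forms is undecidable

Idea. Families `Fam G` are closed under intersection with regular languages (product with a finite
automaton), so adding a right-linear part `R` to a grammar `G` with `L(R) ⊆ L(G)` does not change
the family. If `G` generates a word in which all terminal letters occur and which is the only word
of its length in `L(G)`, then conversely `Fam(G + R) = Fam(G)` forces `L(R) ⊆ L(G)`. For a fixed
context-free grammar `G` of incorrect histories of a residue machine with an undecidable halting
problem, the inclusion `L(R_n) ⊆ L(G)` says that the machine does not halt on input `n`.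
-/

namespace Pool.Agent.Results.MP_3cd25e_lc.FamilyEquivalence

open Pool.Agent.TH736.GF

/-- Family equivalence of context-free grammars is undecidable: the set of pairs `(G₁, G₂)` of
context-free grammars (without erasing productions) with `Fam G₁ = Fam G₂` is not recursive; there
even is a fixed grammar `G` for which the set of all grammars `H` with `Fam G = Fam H` is not
recursive. -/
theorem result :
    (¬ ComputablePred (fun G : Gram × Gram => Fam G.1 = Fam G.2)) ∧
    ∃ G : Gram, ¬ ComputablePred (fun H : Gram => Fam G = Fam H) :=
  ⟨main_pair, main_fixed⟩

end Pool.Agent.Results.MP_3cd25e_lc.FamilyEquivalence
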